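import Pool.Agent.U307.NIL.Stm
import Pool.Agent.H767R2.Weyl

/-!
# Project NIL, package ERG (helper174)

The averages of `ρ (k n)` tend to zero in the irreducible representations of finite dimension which are not torsion.
-/

set_option autoImplicit false

open Filter Topology Finset
open scoped InnerProductSpace Polynomial

namespace Pool.Agent.U174.NIL

open Pool.Agent.U307.NIL

section comm

variable {A : Type} [CommGroup A]

theorem D_pow (v : ℕ → A) (q : ℕ) : D (fun n => v n ^ q) = fun n => D v n ^ q := by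
  funext n
  simp only [D, mul_pow, inv_pow]

theorem Dit_pow (K : ℕ) : ∀ (v : ℕ → A) (q : ℕ), D^[K] (fun n => v n ^ q) = fun n => (D^[K] v) n ^ q := by
  induction K with
  | zero => intro v q; rfl
  | succ K ih => intro v q; rw [Function.iterate_succ_apply, D_pow, ih, Function.iterate_succ_apply]

theorem D_shift (v : ℕ → A) (Q : ℕ) :
    D (fun n => (v n)⁻¹ * v (n + Q)) = fun n => (D v n)⁻¹ * D v (n + Q) := by
  funext n
  have h : n + 1 + Q = n + Q + 1 := by ring
  simp only [D, h, mul_inv_rev, inv_inv]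
  rw [mul_comm (v (n + Q))⁻¹ (v n), mul_comm (v (n + 1))⁻¹ (v n)]
  rw [mul_assoc, mul_assoc, mul_left_comm (v (n + Q))⁻¹]

theorem Dit_shift (K : ℕ) : ∀ (v : ℕ → A) (Q : ℕ),
    D^[K] (fun n => (v n)⁻¹ * v (n + Q)) = fun n => (D^[K] v n)⁻¹ * D^[K] v (n + Q) := by
  induction K with
  | zero => intro v Q; rfl
  | succ K ih => intro v Q; rw [Function.iterate_succ_apply, D_shift, ih, Function.iterate_succ_apply]

theorem D_per {v : ℕ → A} {Q : ℕ} (h : ∀ n, v (n + Q) = v n) (n : ℕ) : D v (n + Q) = D v n := by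
  have h1 : n + Q + 1 = n + 1 + Q := by ring
  rw [D, D, h1, h, h]

theorem Dit_per (K : ℕ) : ∀ {v : ℕ → A} {Q : ℕ}, (∀ n, v (n + Q) = v n) → ∀ n, D^[K] v (n + Q) = D^[K] v n := by
  induction K with
  | zero => intro v Q h n; exact h n
  | succ K ih =>
    intro v Q h n
    rw [Function.iterate_succ_apply]
    exact ih (D_per h) n

theorem const_of_D {v : ℕ → A} (h : D v = fun _ => 1) (n : ℕ) : v n = v 0 := by
  induction n with
  | zero => rfl
  | succ n ih =>
    have h1 := congrFun h n
    rw [D, inv_mul_eq_one] at h1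
    rw [← h1, ih]

/-- a polynomial sequence in a commutative group which is trivial on an arithmetic progression has finite order -/
theorem tors (a Q : ℕ) (hQ : 0 < Q) : ∀ (K : ℕ) (v : ℕ → A), (D^[K] v = fun _ => 1) →
    (∀ j, v (a + Q * j) = 1) → ∃ q : ℕ, 0 < q ∧ ∀ n, v n ^ q = 1 := by
  intro K
  induction K with
  | zero =>
    intro v h _
    refine ⟨1, one_pos, fun n => ?_⟩
    have h1 := congrFun h n
    rw [pow_one]
    exact h1
  | succ K ih =>
    intro v h hv
    have hc : ∀ n, D^[K] v n = D^[K] v 0 := const_of_D (by rwa [Function.iterate_succ_apply'] at h)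
    obtain ⟨q1, hq1, h1⟩ := ih (fun n => (v n)⁻¹ * v (n + Q)) (by
      rw [Dit_shift]
      funext n
      rw [hc n, hc (n + Q), inv_mul_cancel]) (by
      intro j
      have e1 : a + Q * j + Q = a + Q * (j + 1) := by ring
      simp only [e1, hv]
      rw [inv_one, one_mul])
    have hper : ∀ n, v (n + Q) ^ q1 = v n ^ q1 := by
      intro n
      have h2 := h1 n
      rw [mul_pow, inv_pow, inv_mul_eq_one] at h2
      exact h2.symm
    cases K with
    | zero =>
      refine ⟨1, one_pos, fun n => ?_⟩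
      have h2 : v n = v 0 := hc n
      have h3 : v a = v 0 := hc a
      have h4 : v a = 1 := by simpa using hv 0
      rw [pow_one, h2, ← h3, h4]
    | succ K' =>
      -- the sequence `v ^ q1` is periodic
      have hper' : ∀ n, D^[K'] (fun n => v n ^ q1) (n + Q) = D^[K'] (fun n => v n ^ q1) n :=
        Dit_per K' hper
      have hstep : ∀ n, D^[K'] (fun n => v n ^ q1) (n + 1) =
          D^[K'] (fun n => v n ^ q1) n * (D^[K' + 1] v 0) ^ q1 := by
        intro n
        have h2 : D^[K' + 1] (fun n => v n ^ q1) n = (D^[K' + 1] v 0) ^ q1 := by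
          rw [Dit_pow]
          simp only [hc n]
        rw [Function.iterate_succ_apply', D] at h2
        rw [← h2, mul_inv_cancel_left]
      have hmul : ∀ m, D^[K'] (fun n => v n ^ q1) m =
          D^[K'] (fun n => v n ^ q1) 0 * ((D^[K' + 1] v 0) ^ q1) ^ m := by
        intro m
        induction m with
        | zero => rw [pow_zero, mul_one]
        | succ m ihm => rw [hstep, ihm, pow_succ, mul_assoc]
      have hQ1 : ((D^[K' + 1] v 0) ^ q1) ^ Q = 1 := by
        have h2 := hper' 0
        rw [zero_add, hmul Q] at h2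
        exact mul_eq_left.mp h2
      obtain ⟨q2, hq2, h2⟩ := ih (fun n => v n ^ (q1 * Q)) (by
        rw [Dit_pow]
        funext n
        rw [hc n, pow_mul, hQ1]) (by
        intro j
        simp only [hv, one_pow])
      refine ⟨q1 * Q * q2, by positivity, fun n => ?_⟩
      rw [pow_mul]
      exact h2 n

end comm

theorem e_ee (t : ℝ) : e t = Pool.Agent.H767R2.ee t := by
  rw [e, Pool.Agent.H767R2.ee]
  congr 1
  ring

theorem e_nsmul (t : ℝ) (m : ℕ) : e t ^ m = e (m * t) := by
  rw [e, e, ← Complex.exp_nat_mul]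
  congr 1
  push_cast
  ring

/-- the averages over the natural numbers tend to zero if those over the residue classes do -/
theorem av_of_residues {K : Type} [NormedAddCommGroup K] [NormedSpace ℂ K] {a : ℕ → K} {C : ℝ} (hC : 0 ≤ C)
    (ha : ∀ n, ‖a n‖ ≤ C) {q : ℕ} (hq : 0 < q)
    (h : ∀ r < q, Tendsto (av fun n => a (r + q * n)) atTop (𝓝 0)) :
    Tendsto (av a) atTop (𝓝 0) := by
  have hnorm : ∀ (b : ℕ → K) (N : ℕ), ‖av b N‖ = ‖∑ n ∈ range N, b n‖ / N := by
    intro b N
    rw [av, norm_smul, norm_inv, Complex.norm_natCast]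
    ring
  have hiff : ∀ b : ℕ → K, Tendsto (av b) atTop (𝓝 0) ↔
      Tendsto (fun N : ℕ => ‖∑ n ∈ range N, b n‖ / N) atTop (𝓝 0) := by
    intro b
    rw [tendsto_zero_iff_norm_tendsto_zero]
    exact tendsto_congr fun N => hnorm b N
  rw [hiff]
  have hdiv : Tendsto (fun N : ℕ => N / q) atTop atTop := Nat.tendsto_div_const_atTop hq.ne'
  have h1 : Tendsto (fun N : ℕ => ∑ r ∈ range q, ‖∑ n ∈ range (N / q), a (r + q * n)‖ /
      ((N / q : ℕ) : ℝ)) atTop (𝓝 0) := by
    have : (0 : ℝ) = ∑ _r ∈ range q, (0 : ℝ) := by simp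
    rw [this]
    refine tendsto_finsetSum _ fun r hr => ?_
    exact ((hiff _).mp (h r (Finset.mem_range.mp hr))).comp hdiv
  have h2 : Tendsto (fun N : ℕ => (q * C : ℝ) / N) atTop (𝓝 0) :=
    tendsto_const_div_atTop_nhds_zero_nat _
  have h3 := h1.add h2
  rw [add_zero] at h3
  have hblock : ∀ M : ℕ, ∑ n ∈ range (q * M), a n =
      ∑ r ∈ range q, ∑ n ∈ range M, a (r + q * n) := by
    intro M
    induction M with
    | zero => simp
    | succ M ih =>
      rw [Nat.mul_succ, Finset.sum_range_add, ih, ← Finset.sum_add_distrib]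
      refine Finset.sum_congr rfl fun r _ => ?_
      rw [Finset.sum_range_succ, add_comm r]
  refine squeeze_zero' (Eventually.of_forall fun N => by positivity) ?_ h3
  filter_upwards [eventually_ge_atTop q] with N hN
  have hNpos : (0 : ℝ) < N := by
    have : 0 < N := lt_of_lt_of_le hq hN
    exact_mod_cast this
  have hMpos : 0 < N / q := Nat.div_pos hN hq
  have hMR : (0 : ℝ) < ((N / q : ℕ) : ℝ) := by exact_mod_cast hMpos
  have hsplit : ∑ n ∈ range N, a n = ∑ n ∈ range (q * (N / q)), a n
      + ∑ n ∈ range (N % q), a (q * (N / q) + n) := by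
    rw [← Finset.sum_range_add, Nat.div_add_mod]
  have hrem : ‖∑ n ∈ range (N % q), a (q * (N / q) + n)‖ ≤ q * C := by
    refine (norm_sum_le _ _).trans ?_
    calc _ ≤ ∑ _j ∈ range (N % q), C := Finset.sum_le_sum fun j _ => ha _
      _ = (N % q : ℕ) * C := by rw [Finset.sum_const, Finset.card_range, nsmul_eq_mul]
      _ ≤ q * C := by
        gcongr
        exact (Nat.mod_lt N hq).le
  rw [hsplit, hblock]
  calc ‖∑ r ∈ range q, ∑ n ∈ range (N / q), a (r + q * n) +
        ∑ n ∈ range (N % q), a (q * (N / q) + n)‖ / N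
      ≤ (∑ r ∈ range q, ‖∑ n ∈ range (N / q), a (r + q * n)‖ + q * C) / N := by
        gcongr
        exact (norm_add_le _ _).trans (add_le_add (norm_sum_le _ _) hrem)
    _ = (∑ r ∈ range q, ‖∑ n ∈ range (N / q), a (r + q * n)‖) / N + q * C / N := add_div _ _ _
    _ ≤ (∑ r ∈ range q, ‖∑ n ∈ range (N / q), a (r + q * n)‖) / ((N / q : ℕ) : ℝ) + q * C / N := by
        gcongr
        exact_mod_cast Nat.div_le_self N q
    _ = _ := by rw [Finset.sum_div]

/-- a real polynomial with rational coefficients of index at least one is an integer multiple of a rational number,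
up to a constant, at the natural numbers -/
theorem rat_poly (P : ℝ[X]) (h : ∀ i, 1 ≤ i → ¬ Irrational (P.coeff i)) :
    ∃ q : ℕ, 0 < q ∧ ∀ j : ℕ, ∃ z : ℤ, (q : ℝ) * P.eval (j : ℝ) = z + q * P.eval 0 := by
  have hrat : ∀ i, ∃ r : ℚ, 1 ≤ i → P.coeff i = r := by
    intro i
    by_cases hi : 1 ≤ i
    · have := h i hi
      rw [Irrational, not_not] at this
      obtain ⟨r, hr⟩ := this
      exact ⟨r, fun _ => hr.symm⟩
    · exact ⟨0, fun h => absurd h hi⟩
  choose r hr using hrat
  set q : ℕ := ∏ i ∈ Finset.range (P.natDegree + 1), (r i).den with hq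
  have hqpos : 0 < q := Finset.prod_pos fun i _ => (r i).den_pos
  have hqint : ∀ i, 1 ≤ i → i ≤ P.natDegree → ∃ z : ℤ, (q : ℝ) * P.coeff i = z := by
    intro i hi hid
    obtain ⟨c, hc⟩ : (r i).den ∣ q :=
      Finset.dvd_prod_of_mem _ (Finset.mem_range.mpr (Nat.lt_succ_of_le hid))
    refine ⟨c * (r i).num, ?_⟩
    rw [hr i hi, hc]
    have h1 : (r i : ℝ) = (r i).num / (r i).den := by
      exact_mod_cast (Rat.num_div_den (r i)).symm
    have h2 : ((r i).den : ℝ) ≠ 0 := by exact_mod_cast (r i).den_ne_zero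
    rw [h1]
    push_cast
    field_simp
  refine ⟨q, hqpos, fun j => ?_⟩
  have hterm : ∀ i ∈ Finset.range P.natDegree, ∃ z : ℤ,
      (q : ℝ) * (P.coeff (i + 1) * (j : ℝ) ^ (i + 1)) = z := by
    intro i hi
    obtain ⟨z, hz⟩ := hqint (i + 1) (by omega) (by have := Finset.mem_range.mp hi; omega)
    refine ⟨z * (j : ℤ) ^ (i + 1), ?_⟩
    push_cast
    rw [← hz]
    ring
  choose! z hz using hterm
  refine ⟨∑ i ∈ Finset.range P.natDegree, z i, ?_⟩
  rw [Polynomial.eval_eq_sum_range, Finset.sum_range_succ', mul_add, Finset.mul_sum]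
  push_cast
  rw [Finset.sum_congr rfl hz, pow_zero, mul_one, ← Polynomial.coeff_zero_eq_eval_zero]

/-- a homomorphism is compatible with the differences -/
theorem Dit_map {M A : Type} [Group M] [Group A] (χ : M →* A) (K : ℕ) : ∀ k : ℕ → M,
    D^[K] (fun n => χ (k n)) = fun n => χ (D^[K] k n) := by
  induction K with
  | zero => intro k; rfl
  | succ K ih =>
    intro k
    have h : D (fun n => χ (k n)) = fun n => χ (D k n) := by
      funext n
      simp only [D, map_mul, map_inv]
    rw [Function.iterate_succ_apply, h, ih, Function.iterate_succ_apply]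

/-- the determinant of the representation -/
noncomputable def detU {M : Type} [Group M] {K : Type} [NormedAddCommGroup K] [InnerProductSpace ℂ K]
    (ρ : M →* (K ≃ₗᵢ[ℂ] K)) : M →* ℂˣ where
  toFun x := LinearEquiv.det (ρ x).toLinearEquiv
  map_one' := by
    rw [map_one]
    exact map_one _
  map_mul' x y := by
    rw [map_mul]
    exact map_mul (LinearEquiv.det) (ρ x).toLinearEquiv (ρ y).toLinearEquiv

theorem detU_eq {M : Type} [Group M] {K : Type} [NormedAddCommGroup K] [InnerProductSpace ℂ K]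
    (ρ : M →* (K ≃ₗᵢ[ℂ] K)) {x y : M} {c : ℂ} (h : ∀ v, ρ x v = c • ρ y v) :
    (detU ρ x : ℂ) = c ^ Module.finrank ℂ K * (detU ρ y : ℂ) := by
  have h1 : ((ρ x).toLinearEquiv : K →ₗ[ℂ] K) = c • ((ρ y).toLinearEquiv : K →ₗ[ℂ] K) := by
    ext v
    exact h v
  change ((LinearEquiv.det (ρ x).toLinearEquiv : ℂˣ) : ℂ) =
    c ^ Module.finrank ℂ K * ((LinearEquiv.det (ρ y).toLinearEquiv : ℂˣ) : ℂ)
  rw [LinearEquiv.coe_det, LinearEquiv.coe_det, h1, LinearMap.det_smul]

theorem detU_scalar {M : Type} [Group M] {K : Type} [NormedAddCommGroup K] [InnerProductSpace ℂ K]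
    (ρ : M →* (K ≃ₗᵢ[ℂ] K)) {x : M} {c : ℂ} (h : ∀ v, ρ x v = c • v) :
    (detU ρ x : ℂ) = c ^ Module.finrank ℂ K := by
  have h1 := detU_eq ρ (x := x) (y := 1) (c := c) (by
    intro v
    rw [h, map_one]
    rfl)
  rw [h1, map_one]
  simp

theorem t_ERG : S_PH → S_ERG := by
  intro hPH M _ k s hk K _ _ _ ρ hirr hfin htor ξ
  obtain ⟨⟨q, hq, hsc⟩, Q, hQ, hP⟩ := hPH M k s hk K ρ hirr hfin
  rcases subsingleton_or_nontrivial K with hK | hK
  · have h0 : (av fun n => ρ (k n) ξ) = fun _ => 0 := by
      funext N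
      exact Subsingleton.elim _ _
    rw [h0]
    exact tendsto_const_nhds
  choose P hP using hP
  have hone : ∀ a, e ((P a).eval 0) = 1 := by
    intro a
    obtain ⟨v, hv⟩ := exists_ne (0 : K)
    have h1 := hP a 0 ((ρ (k a)).symm v)
    rw [Nat.cast_zero, mul_zero, add_zero, LinearIsometryEquiv.apply_symm_apply] at h1
    have h2 : (e ((P a).eval 0) - 1) • v = 0 := by
      rw [sub_smul, ← h1, one_smul, sub_self]
    rcases smul_eq_zero.mp h2 with h3 | h3
    · exact sub_eq_zero.mp h3
    · exact absurd h3 hv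
  by_cases hA : ∀ a < Q, ∃ i, 1 ≤ i ∧ Irrational ((P a).coeff i)
  · refine av_of_residues (norm_nonneg ξ) (fun n => (LinearIsometryEquiv.norm_map _ _).le) hQ fun a ha => ?_
    have h1 := Pool.Agent.H767R2.weyl_poly (P a) (hA a ha)
    have h2 := h1.smul_const (ρ (k a) ξ)
    rw [zero_smul] at h2
    refine h2.congr fun N => ?_
    rw [av, Pool.Agent.H767R2.cav, one_div, mul_smul, Finset.sum_smul]
    congr 1
    refine Finset.sum_congr rfl fun n _ => ?_
    rw [hP a n ξ, e_ee]
  · exfalso
    push Not at hA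
    obtain ⟨a, -, hA⟩ := hA
    obtain ⟨q3, hq3, h3⟩ := rat_poly (P a) (fun i hi => hA i hi)
    have he3 : ∀ j : ℕ, e ((P a).eval (j : ℝ)) ^ q3 = 1 := by
      intro j
      obtain ⟨z, hz⟩ := h3 j
      rw [e_nsmul, hz, e_ee, Pool.Agent.H767R2.ee_add, Pool.Agent.H767R2.ee_int, one_mul, ← e_ee, ← e_nsmul,
        hone, one_pow]
    obtain ⟨L, hL⟩ := hk.diff
    obtain ⟨q4, hq4, h4⟩ := tors a Q hQ (L + 1) (fun n => ((detU ρ (k a))⁻¹ * detU ρ (k n)) ^ q3) (by
      rw [Dit_pow, Function.iterate_succ_apply]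
      have e1 : D (fun n => (detU ρ (k a))⁻¹ * detU ρ (k n)) = D (fun n => detU ρ (k n)) := by
        funext n
        simp only [D]
        group
      rw [e1, ← Function.iterate_succ_apply, Dit_map, Function.iterate_succ_apply', hL]
      funext n
      simp [D]) (by
      intro j
      have e1 := detU_eq ρ (hP a j)
      have e2 : (detU ρ (k (a + Q * j))) ^ q3 = (detU ρ (k a)) ^ q3 := by
        apply Units.ext
        rw [Units.val_pow_eq_pow_val, Units.val_pow_eq_pow_val, e1, mul_pow, ← pow_mul, mul_comm _ q3, pow_mul,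
          he3, one_pow, one_mul]
      simp only [mul_pow, inv_pow, e2, inv_mul_cancel])
    have h5 : ∀ n, detU ρ (k n) ^ (q3 * q4) = 1 := by
      have h6 : ∀ n, detU ρ (k n) ^ (q3 * q4) = detU ρ (k a) ^ (q3 * q4) := by
        intro n
        have h7 := h4 n
        rw [← pow_mul, mul_pow, inv_pow, inv_mul_eq_one] at h7
        exact h7.symm
      intro n
      rw [h6 n, ← h6 0, hk.zero, map_one, one_pow]
    have h6 : ∀ x : M, detU ρ x ^ (q3 * q4) = 1 := by
      intro x
      have hx : x ∈ Subgroup.closure (Set.range k) := by rw [hk.gen]; trivial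
      induction hx using Subgroup.closure_induction with
      | mem x hx => obtain ⟨n, rfl⟩ := hx; exact h5 n
      | one => rw [map_one, one_pow]
      | mul x y _ _ hx hy => rw [map_mul, mul_pow, hx, hy, one_mul]
      | inv x _ hx => rw [map_inv, inv_pow, hx, inv_one]
    have hd : 0 < Module.finrank ℂ K := Module.finrank_pos
    apply htor
    refine ⟨q * (Module.finrank ℂ K * (q3 * q4)), by positivity, ?_⟩
    intro x hx
    unfold Pw at hx
    induction hx using Subgroup.closure_induction with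
    | mem x hx =>
      obtain ⟨g, rfl⟩ := hx
      obtain ⟨c, hc⟩ := hsc g
      have e1 := detU_scalar ρ hc
      have e2 : c ^ (Module.finrank ℂ K * (q3 * q4)) = 1 := by
        rw [pow_mul, ← e1, ← Units.val_pow_eq_pow_val, map_pow, ← pow_mul, mul_comm, pow_mul, h6, one_pow,
          Units.val_one]
      have e3 : ∀ (m : ℕ) (h : K), ρ ((g ^ q) ^ m) h = c ^ m • h := by
        intro m
        induction m with
        | zero => intro h; rw [pow_zero, map_one, pow_zero, one_smul]; rfl
        | succ m ihm =>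
          intro h
          have e4 : ρ ((g ^ q) ^ (m + 1)) h = ρ ((g ^ q) ^ m) (ρ (g ^ q) h) := by
            rw [pow_succ, map_mul]
            rfl
          rw [e4, hc, map_smul, ihm, smul_smul, pow_succ, mul_comm]
      rw [pow_mul]
      ext h
      rw [e3, e2, one_smul]
      rfl
    | one => rw [map_one]
    | mul x y _ _ hx hy => rw [map_mul, hx, hy, one_mul]
    | inv x _ hx => rw [map_inv, hx, inv_one]

end Pool.Agent.U174.NIL
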